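import Pool.Agent.ABY.Stmts

/-!
# ABY / VRG (helper81): the change by a regauging or a release
-/

set_option autoImplicit false

open scoped BigOperators Matrix

noncomputable section

namespace Pool.Agent.ABY.H81

open Pool.Agent.ABY

theorem vrg : VrgStmt := by
  intro X _ _ p p' k w w' δ γ d hδ hγ hd hw hw' h1 h2
  have hk : ∀ b, 0 ≤ k b := fun b => (hw b).1.trans (hw b).2
  -- Cauchy-Schwarz
  have hcs : ∑ b, k b * (‖p' b - p b‖ * ‖p b‖) ≤ δ * γ := by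
    have h := Finset.sum_mul_sq_le_sq_mul_sq Finset.univ
      (fun b => Real.sqrt (k b) * ‖p' b - p b‖) (fun b => Real.sqrt (k b) * ‖p b‖)
    have e1 : ∑ b, (Real.sqrt (k b) * ‖p' b - p b‖) * (Real.sqrt (k b) * ‖p b‖) =
        ∑ b, k b * (‖p' b - p b‖ * ‖p b‖) := by
      refine Finset.sum_congr rfl fun b _ => ?_
      calc (Real.sqrt (k b) * ‖p' b - p b‖) * (Real.sqrt (k b) * ‖p b‖) =
          (Real.sqrt (k b) * Real.sqrt (k b)) * (‖p' b - p b‖ * ‖p b‖) := by ring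
        _ = _ := by rw [Real.mul_self_sqrt (hk b)]
    have e2 : ∑ b, (Real.sqrt (k b) * ‖p' b - p b‖) ^ 2 = ∑ b, k b * ‖p' b - p b‖ ^ 2 := by
      refine Finset.sum_congr rfl fun b _ => ?_
      rw [mul_pow, Real.sq_sqrt (hk b)]
    have e3 : ∑ b, (Real.sqrt (k b) * ‖p b‖) ^ 2 = ∑ b, k b * ‖p b‖ ^ 2 := by
      refine Finset.sum_congr rfl fun b _ => ?_
      rw [mul_pow, Real.sq_sqrt (hk b)]
    rw [e1, e2, e3] at h
    have h3 : (∑ b, k b * (‖p' b - p b‖ * ‖p b‖)) ^ 2 ≤ (δ * γ) ^ 2 := by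
      refine h.trans ?_
      rw [mul_pow]
      exact mul_le_mul h1 h2 (Finset.sum_nonneg fun b _ => mul_nonneg (hk b) (sq_nonneg _))
        (sq_nonneg _)
    exact abs_le_of_sq_le_sq' h3 (mul_nonneg hδ hγ) |>.2
  -- Minkowski
  have hmk : ∑ b, k b * ‖p' b‖ ^ 2 ≤ (γ + δ) ^ 2 := by
    have : ∀ b, k b * ‖p' b‖ ^ 2 ≤ k b * ‖p b‖ ^ 2 + 2 * (k b * (‖p' b - p b‖ * ‖p b‖)) +
        k b * ‖p' b - p b‖ ^ 2 := by
      intro b
      have h3 : ‖p' b‖ ≤ ‖p b‖ + ‖p' b - p b‖ := by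
        have := norm_add_le (p b) (p' b - p b)
        rwa [add_sub_cancel] at this
      have h4 : ‖p' b‖ ^ 2 ≤ (‖p b‖ + ‖p' b - p b‖) ^ 2 :=
        pow_le_pow_left₀ (norm_nonneg _) h3 2
      have := mul_le_mul_of_nonneg_left h4 (hk b)
      nlinarith
    calc ∑ b, k b * ‖p' b‖ ^ 2 ≤ ∑ b, (k b * ‖p b‖ ^ 2 +
          2 * (k b * (‖p' b - p b‖ * ‖p b‖)) + k b * ‖p' b - p b‖ ^ 2) :=
          Finset.sum_le_sum fun b _ => this b
      _ = ∑ b, k b * ‖p b‖ ^ 2 + 2 * ∑ b, k b * (‖p' b - p b‖ * ‖p b‖) +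
          ∑ b, k b * ‖p' b - p b‖ ^ 2 := by
          rw [Finset.sum_add_distrib, Finset.sum_add_distrib, ← Finset.mul_sum]
      _ ≤ (γ + δ) ^ 2 := by nlinarith
  -- the common bound
  have hcommon : ∑ b, (d * (k b * ‖p' b‖ ^ 2) + (2 * (k b * (‖p' b - p b‖ * ‖p b‖)) +
      k b * ‖p' b - p b‖ ^ 2)) ≤ (2 * δ * γ + δ ^ 2) + d * (γ + δ) ^ 2 := by
    rw [Finset.sum_add_distrib, Finset.sum_add_distrib, ← Finset.mul_sum, ← Finset.mul_sum]
    have := mul_le_mul_of_nonneg_left hmk hd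
    nlinarith
  have hA : |‖∑ b, (w' b : ℂ) * p' b ^ 2‖ - ‖∑ b, (w b : ℂ) * p b ^ 2‖| ≤
      (2 * δ * γ + δ ^ 2) + d * (γ + δ) ^ 2 := by
    refine (abs_norm_sub_norm_le _ _).trans ?_
    rw [← Finset.sum_sub_distrib]
    refine (norm_sum_le _ _).trans ((Finset.sum_le_sum fun b _ => ?_).trans hcommon)
    have e : (w' b : ℂ) * p' b ^ 2 - (w b : ℂ) * p b ^ 2 =
        ((w' b - w b : ℝ) : ℂ) * p' b ^ 2 + (w b : ℂ) * ((p' b - p b) * (2 * p b + (p' b - p b))) := by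
      push_cast; ring
    rw [e]
    refine (norm_add_le _ _).trans (add_le_add ?_ ?_)
    · rw [norm_mul, norm_pow, Complex.norm_real, Real.norm_eq_abs]
      calc |w' b - w b| * ‖p' b‖ ^ 2 ≤ d * k b * ‖p' b‖ ^ 2 :=
            mul_le_mul_of_nonneg_right (hw' b) (sq_nonneg _)
        _ = d * (k b * ‖p' b‖ ^ 2) := by ring
    · rw [norm_mul, norm_mul, Complex.norm_real, Real.norm_of_nonneg (hw b).1]
      have h3 : ‖2 * p b + (p' b - p b)‖ ≤ 2 * ‖p b‖ + ‖p' b - p b‖ := by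
        refine (norm_add_le _ _).trans ?_
        rw [norm_mul]
        simp
      calc w b * (‖p' b - p b‖ * ‖2 * p b + (p' b - p b)‖) ≤
            k b * (‖p' b - p b‖ * (2 * ‖p b‖ + ‖p' b - p b‖)) :=
            mul_le_mul (hw b).2 (mul_le_mul_of_nonneg_left h3 (norm_nonneg _))
              (mul_nonneg (norm_nonneg _) (norm_nonneg _)) (hk b)
        _ = _ := by ring
  have hB : |∑ b, w' b * ‖p' b‖ ^ 2 - ∑ b, w b * ‖p b‖ ^ 2| ≤
      (2 * δ * γ + δ ^ 2) + d * (γ + δ) ^ 2 := by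
    rw [← Finset.sum_sub_distrib]
    refine (Finset.abs_sum_le_sum_abs _ _).trans ((Finset.sum_le_sum fun b _ => ?_).trans hcommon)
    have e : w' b * ‖p' b‖ ^ 2 - w b * ‖p b‖ ^ 2 =
        (w' b - w b) * ‖p' b‖ ^ 2 + w b * ((‖p' b‖ - ‖p b‖) * (‖p' b‖ + ‖p b‖)) := by ring
    rw [e]
    refine (abs_add_le _ _).trans (add_le_add ?_ ?_)
    · rw [abs_mul, abs_of_nonneg (sq_nonneg ‖p' b‖)]
      calc |w' b - w b| * ‖p' b‖ ^ 2 ≤ d * k b * ‖p' b‖ ^ 2 :=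
            mul_le_mul_of_nonneg_right (hw' b) (sq_nonneg _)
        _ = d * (k b * ‖p' b‖ ^ 2) := by ring
    · rw [abs_mul, abs_mul, abs_of_nonneg (hw b).1]
      have h3 : |‖p' b‖ - ‖p b‖| ≤ ‖p' b - p b‖ := abs_norm_sub_norm_le _ _
      have h4 : |‖p' b‖ + ‖p b‖| ≤ 2 * ‖p b‖ + ‖p' b - p b‖ := by
        rw [abs_of_nonneg (by positivity)]
        have := norm_add_le (p b) (p' b - p b)
        rw [add_sub_cancel] at this
        linarith
      calc w b * (|‖p' b‖ - ‖p b‖| * |‖p' b‖ + ‖p b‖|) ≤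
            k b * (‖p' b - p b‖ * (2 * ‖p b‖ + ‖p' b - p b‖)) :=
            mul_le_mul (hw b).2 (mul_le_mul h3 h4 (abs_nonneg _) (norm_nonneg _))
              (mul_nonneg (abs_nonneg _) (abs_nonneg _)) (hk b)
        _ = _ := by ring
  linarith

end Pool.Agent.ABY.H81
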